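import Mathlib

/-! # Finite unions of arithmetic progressions and eventually periodic sets -/

set_option autoImplicit false

namespace Pool.Agent.Q59.DM

/-- `S` is a finite union of arithmetic progressions `{a + b k : k ∈ ℕ}` (`b = 0` is allowed). -/
def IsAP (S : Set ℕ) : Prop :=
  ∃ T : Finset (ℕ × ℕ), S = {n : ℕ | ∃ t ∈ T, ∃ k : ℕ, n = t.1 + t.2 * k}

/-- `S` is eventually periodic. -/
def EP (S : Set ℕ) : Prop := ∃ m N : ℕ, 0 < m ∧ ∀ n, N ≤ n → (n ∈ S ↔ n + m ∈ S)

theorem ep_iter {S : Set ℕ} {m N : ℕ} (h : ∀ n, N ≤ n → (n ∈ S ↔ n + m ∈ S)) (k : ℕ) :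
    ∀ n, N ≤ n → (n ∈ S ↔ n + m * k ∈ S) := by
  induction k with
  | zero => intro n _; rw [Nat.mul_zero, Nat.add_zero]
  | succ k ih =>
    intro n hn
    rw [ih n hn, h (n + m * k) (by omega), Nat.mul_succ, Nat.add_assoc]

theorem ep_empty : EP ∅ := ⟨1, 0, one_pos, fun _ _ => by simp⟩

theorem ep_univ : EP Set.univ := ⟨1, 0, one_pos, fun _ _ => by simp⟩

theorem ep_union {S T : Set ℕ} (hS : EP S) (hT : EP T) : EP (S ∪ T) := by
  obtain ⟨m, N, hm, h⟩ := hS
  obtain ⟨m', N', hm', h'⟩ := hT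
  refine ⟨m * m', max N N', Nat.mul_pos hm hm', fun n hn => ?_⟩
  have h1 := ep_iter h m' n (le_trans (le_max_left _ _) hn)
  have h2 := ep_iter h' m n (le_trans (le_max_right _ _) hn)
  rw [Nat.mul_comm m' m] at h2
  rw [Set.mem_union, Set.mem_union, h1, h2]

theorem ep_inter {S T : Set ℕ} (hS : EP S) (hT : EP T) : EP (S ∩ T) := by
  obtain ⟨m, N, hm, h⟩ := hS
  obtain ⟨m', N', hm', h'⟩ := hT
  refine ⟨m * m', max N N', Nat.mul_pos hm hm', fun n hn => ?_⟩
  have h1 := ep_iter h m' n (le_trans (le_max_left _ _) hn)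
  have h2 := ep_iter h' m n (le_trans (le_max_right _ _) hn)
  rw [Nat.mul_comm m' m] at h2
  rw [Set.mem_inter_iff, Set.mem_inter_iff, h1, h2]

theorem ep_biInter {ι : Type} (I : Finset ι) (S : ι → Set ℕ) (h : ∀ i ∈ I, EP (S i)) :
    EP {n | ∀ i ∈ I, n ∈ S i} := by
  classical
  induction I using Finset.induction_on with
  | empty => simpa using ep_univ
  | insert a s ha ih =>
    have h1 := ep_inter (h a (Finset.mem_insert_self _ _))
      (ih fun i hi => h i (Finset.mem_insert_of_mem hi))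
    convert h1 using 1
    ext n
    simp [Finset.forall_mem_insert]

theorem ep_ap (a b : ℕ) : EP {n : ℕ | ∃ k : ℕ, n = a + b * k} := by
  rcases Nat.eq_zero_or_pos b with rfl | hb
  · refine ⟨1, a + 1, one_pos, fun n hn => ?_⟩
    simp only [Nat.zero_mul, Nat.add_zero, Set.mem_ofPred_eq, exists_const]
    omega
  · refine ⟨b, a, hb, fun n hn => ?_⟩
    simp only [Set.mem_ofPred_eq]
    constructor
    · rintro ⟨k, rfl⟩
      exact ⟨k + 1, by rw [Nat.mul_succ, Nat.add_assoc]⟩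
    · rintro ⟨k, hk⟩
      rcases Nat.eq_zero_or_pos k with rfl | hk0
      · rw [Nat.mul_zero] at hk
        omega
      · obtain ⟨j, rfl⟩ : ∃ j, k = j + 1 := ⟨k - 1, by omega⟩
        refine ⟨j, ?_⟩
        rw [Nat.mul_succ] at hk
        omega

theorem IsAP.ep {S : Set ℕ} (h : IsAP S) : EP S := by
  classical
  obtain ⟨T, rfl⟩ := h
  induction T using Finset.induction_on with
  | empty => simpa using ep_empty
  | insert t s ht ih =>
    have h1 := ep_union (ep_ap t.1 t.2) ih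
    convert h1 using 1
    ext n
    simp only [Finset.mem_insert, Set.mem_ofPred_eq, Set.mem_union]
    constructor
    · rintro ⟨t', (rfl | ht'), k, hk⟩
      · exact Or.inl ⟨k, hk⟩
      · exact Or.inr ⟨t', ht', k, hk⟩
    · rintro (⟨k, hk⟩ | ⟨t', ht', k, hk⟩)
      · exact ⟨t, Or.inl rfl, k, hk⟩
      · exact ⟨t', Or.inr ht', k, hk⟩

theorem EP.isAP {S : Set ℕ} (h : EP S) : IsAP S := by
  classical
  obtain ⟨m, N, hm, h⟩ := h
  refine ⟨((Finset.range N).filter (· ∈ S)).image (fun n => (n, 0)) ∪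
    ((Finset.Ico N (N + m)).filter (· ∈ S)).image (fun n => (n, m)), ?_⟩
  ext n
  simp only [Finset.mem_union, Finset.mem_image, Finset.mem_filter, Finset.mem_range,
    Finset.mem_Ico, Set.mem_ofPred_eq]
  constructor
  · intro hn
    by_cases hN : n < N
    · exact ⟨(n, 0), Or.inl ⟨n, ⟨hN, hn⟩, rfl⟩, 0, by simp⟩
    · push Not at hN
      have h1 : n = (N + (n - N) % m) + m * ((n - N) / m) := by
        have := Nat.mod_add_div (n - N) m
        omega
      refine ⟨(N + (n - N) % m, m), Or.inr ⟨N + (n - N) % m, ⟨⟨by omega, ?_⟩, ?_⟩, rfl⟩,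
        (n - N) / m, h1⟩
      · have := Nat.mod_lt (n - N) hm
        omega
      · rw [ep_iter h ((n - N) / m) (N + (n - N) % m) (by omega), ← h1]
        exact hn
  · rintro ⟨t, (⟨a, ⟨ha, haS⟩, rfl⟩ | ⟨a, ⟨⟨ha, ha'⟩, haS⟩, rfl⟩), k, hk⟩
    · simp only [Nat.zero_mul, Nat.add_zero] at hk
      rw [hk]
      exact haS
    · simp only at hk
      rw [hk]
      exact (ep_iter h k a ha).1 haS

theorem isAP_iff_ep {S : Set ℕ} : IsAP S ↔ EP S := ⟨IsAP.ep, EP.isAP⟩

/-- preimages under multiplication -/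
theorem EP.comap {S : Set ℕ} (h : EP S) {k : ℕ} (hk : 0 < k) : EP {n | k * n ∈ S} := by
  obtain ⟨m, N, hm, h⟩ := h
  refine ⟨m, N, hm, fun n hn => ?_⟩
  have h1 := ep_iter h k (k * n) (le_trans hn (Nat.le_mul_of_pos_left n hk))
  simp only [Set.mem_ofPred_eq]
  rw [h1, Nat.mul_add, Nat.mul_comm k m]

/-- an infinite eventually periodic set contains an arithmetic progression -/
theorem EP.contains {S : Set ℕ} (h : EP S) (hinf : S.Infinite) :
    ∃ a b : ℕ, 0 < b ∧ ∀ k, a + b * k ∈ S := by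
  obtain ⟨m, N, hm, h⟩ := h
  obtain ⟨a, ha, haN⟩ := hinf.exists_gt N
  exact ⟨a, m, hm, fun k => (ep_iter h k a haN.le).1 ha⟩

/-- a set all of whose intersections with residue classes are eventually periodic is eventually
periodic -/
theorem ep_of_classes {S : Set ℕ} (c b : ℕ) (hb : 0 < b)
    (h : ∀ j < b, EP {k | c + j + b * k ∈ S}) : EP S := by
  classical
  choose! m N hm hN using h
  obtain ⟨M, hM⟩ : ∃ M, M = ∏ j ∈ Finset.range b, m j := ⟨_, rfl⟩
  obtain ⟨N', hN'⟩ : ∃ N', N' = ∑ j ∈ Finset.range b, N j := ⟨_, rfl⟩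
  have hM0 : 0 < M := by
    rw [hM]
    exact Finset.prod_pos fun j hj => hm j (Finset.mem_range.1 hj)
  have hdvd : ∀ j < b, m j ∣ M := fun j hj => by
    rw [hM]
    exact Finset.dvd_prod_of_mem m (Finset.mem_range.2 hj)
  have hle : ∀ j < b, N j ≤ N' := fun j hj => by
    rw [hN']
    exact Finset.single_le_sum (f := N) (fun _ _ => Nat.zero_le _) (Finset.mem_range.2 hj)
  refine ⟨b * M, c + b * (N' + 1), Nat.mul_pos hb hM0, fun n hn => ?_⟩
  obtain ⟨k, hk⟩ : ∃ k, k = (n - c) / b := ⟨_, rfl⟩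
  obtain ⟨j, hj⟩ : ∃ j, j = (n - c) % b := ⟨_, rfl⟩
  have hjb : j < b := by rw [hj]; exact Nat.mod_lt _ hb
  have h0 : n = c + j + b * k := by
    have := Nat.mod_add_div (n - c) b
    have : c ≤ n := le_trans (Nat.le_add_right _ _) hn
    rw [hj, hk]
    omega
  have hkN : N' ≤ k := by
    rw [hk]
    refine (Nat.le_div_iff_mul_le hb).2 ?_
    have : b * (N' + 1) ≤ n - c := by omega
    calc N' * b ≤ (N' + 1) * b := Nat.mul_le_mul_right _ (Nat.le_succ _)
      _ = b * (N' + 1) := Nat.mul_comm _ _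
      _ ≤ n - c := this
  obtain ⟨q, hq⟩ := hdvd j hjb
  have h1 := ep_iter (hN j hjb) q k (le_trans (hle j hjb) hkN)
  simp only [Set.mem_ofPred_eq] at h1
  rw [h0, h1, hq]
  have : c + j + b * k + b * (m j * q) = c + j + b * (k + m j * q) := by ring
  rw [this]

end Pool.Agent.Q59.DM
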