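import Pool.Agent.Q59.DM.Weak

/-! # Regular maps of locally closed sets lift to polynomial maps of affine varieties

Jouanolou's trick: a locally closed subset `X` of `ℙ ^ N` is covered by the affine variety `Y` of the
pairs of a matrix `P` of rank one and trace one, whose image is a point of `X`, and of numbers `w`
with `∑ w G_b(P e_j) = 1`. A regular map `X → X` lifts to a polynomial map `Y → Y`. -/

set_option autoImplicit false

namespace Pool.Agent.Q59.DM

open MvPolynomial

/-- projective space -/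
abbrev PP (N : ℕ) := Projectivization ℂ (Fin (N + 1) → ℂ)

theorem eval_smul_hom {τ : Type} {F : MvPolynomial τ ℂ} {d : ℕ} (hF : F.IsHomogeneous d) (c : ℂ)
    (v : τ → ℂ) : eval (c • v) F = c ^ d * eval v F := by
  classical
  rw [eval_eq, eval_eq, Finset.mul_sum]
  refine Finset.sum_congr rfl fun m hm => ?_
  have h1 : ∑ i ∈ m.support, m i = d := by
    have := hF (mem_support_iff.1 hm)
    rw [Finsupp.weight_apply] at this
    simpa [Finsupp.sum] using this
  have h2 : ∏ i ∈ m.support, (c • v) i ^ m i = c ^ d * ∏ i ∈ m.support, v i ^ m i := by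
    rw [← h1, ← Finset.prod_pow_eq_pow_sum, ← Finset.prod_mul_distrib]
    refine Finset.prod_congr rfl fun i _ => ?_
    rw [Pi.smul_apply, smul_eq_mul, mul_pow]
  rw [h2]
  ring

/-- **A weak form of the Nullstellensatz.** -/
theorem null {σ : Type} [Finite σ] (I : Ideal (MvPolynomial σ ℂ))
    (h : ∀ y : σ → ℂ, ∃ p ∈ I, eval y p ≠ 0) : I = ⊤ := by
  by_contra hI
  obtain ⟨M, hM, hIM⟩ := Ideal.exists_le_maximal I hI
  obtain ⟨y, hy⟩ := eq_vanishingIdeal_singleton_of_isMaximal ℂ hM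
  obtain ⟨p, hp, hpy⟩ := h y
  have h1 := hIM hp
  rw [hy, mem_vanishingIdeal_iff] at h1
  have h2 := h1 y rfl
  rw [aeval_eq_eval] at h2
  exact hpy h2

theorem null_on {σ : Type} [Finite σ] (E : Set (MvPolynomial σ ℂ)) (J : Ideal (MvPolynomial σ ℂ))
    (h : ∀ y : σ → ℂ, (∀ e ∈ E, eval y e = 0) → ∃ p ∈ J, eval y p ≠ 0) :
    ∃ p ∈ J, ∀ y : σ → ℂ, (∀ e ∈ E, eval y e = 0) → eval y p = 1 := by
  have h1 : J ⊔ Ideal.span E = ⊤ := by
    refine null _ fun y => ?_
    by_cases hy : ∀ e ∈ E, eval y e = 0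
    · obtain ⟨p, hp, hpy⟩ := h y hy
      exact ⟨p, Ideal.mem_sup_left hp, hpy⟩
    · push Not at hy
      obtain ⟨e, he, hey⟩ := hy
      exact ⟨e, Ideal.mem_sup_right (Ideal.subset_span he), hey⟩
  have h2 : (1 : MvPolynomial σ ℂ) ∈ J ⊔ Ideal.span E := by rw [h1]; trivial
  obtain ⟨p, hp, q, hq, hpq⟩ := Submodule.mem_sup.1 h2
  refine ⟨p, hp, fun y hy => ?_⟩
  have h3 : Ideal.span E ≤ RingHom.ker (eval y) := Ideal.span_le.2 fun e he => hy e he
  have h4 : eval y q = 0 := h3 hq
  have h5 := congrArg (eval y) hpq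
  rw [map_add, h4, add_zero, map_one] at h5
  exact h5

/-- The columns `P j` of a matrix of trace one are in the line `x`. -/
def Over {N : ℕ} (P : Fin (N + 1) → Fin (N + 1) → ℂ) (x : PP N) : Prop :=
  (∀ j, P j ∈ x.submodule) ∧ ∑ i, P i i = 1

section overS

variable {N : ℕ} {P : Fin (N + 1) → Fin (N + 1) → ℂ} {x : PP N}

theorem Over.exists_ne (h : Over P x) : ∃ j, P j ≠ 0 := by
  by_contra hcon
  push Not at hcon
  have h1 := h.2
  simp [hcon] at h1

theorem Over.smul (h : Over P x) (j : Fin (N + 1)) : ∃ c : ℂ, P j = c • x.rep := by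
  have h1 := h.1 j
  rw [Projectivization.submodule_eq, Submodule.mem_span_singleton] at h1
  obtain ⟨c, hc⟩ := h1
  exact ⟨c, hc.symm⟩

theorem Over.smul_ne (h : Over P x) : ∃ (j : Fin (N + 1)) (c : ℂ), c ≠ 0 ∧ P j = c • x.rep := by
  obtain ⟨j, hj⟩ := h.exists_ne
  obtain ⟨c, hc⟩ := h.smul j
  refine ⟨j, c, ?_, hc⟩
  rintro rfl
  rw [zero_smul] at hc
  exact hj hc

theorem Over.eval_iff (h : Over P x) {F : MvPolynomial (Fin (N + 1)) ℂ} {d : ℕ}
    (hF : F.IsHomogeneous d) : (∀ j, eval (P j) F = 0) ↔ eval x.rep F = 0 := by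
  constructor
  · intro h1
    obtain ⟨j, c, hc, hj⟩ := h.smul_ne
    have h2 := h1 j
    rw [hj, eval_smul_hom hF] at h2
    exact (mul_eq_zero.1 h2).resolve_left (pow_ne_zero _ hc)
  · intro h1 j
    obtain ⟨c, hc⟩ := h.smul j
    rw [hc, eval_smul_hom hF, h1, mul_zero]

end overS

section setup

variable {N : ℕ} {β : Type}

/-- the variables -/
abbrev Var (N : ℕ) (β : Type) := (Fin (N + 1) × Fin (N + 1)) ⊕ (β × Fin (N + 1))

/-- the columns of the matrix -/
def col (y : Var N β → ℂ) (j : Fin (N + 1)) : Fin (N + 1) → ℂ := fun i => y (Sum.inl (i, j))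

/-- a polynomial in the column `j` -/
noncomputable def inCol (β : Type) (j : Fin (N + 1)) (F : MvPolynomial (Fin (N + 1)) ℂ) :
    MvPolynomial (Var N β) ℂ := rename (fun i => Sum.inl (i, j)) F

theorem eval_inCol (y : Var N β → ℂ) (j : Fin (N + 1)) (F : MvPolynomial (Fin (N + 1)) ℂ) :
    eval y (inCol β j F) = eval (col y j) F := by
  unfold inCol
  rw [eval_rename]
  rfl

/-- the condition on the second part of the coordinates -/
def WC [Fintype β] (G : β → MvPolynomial (Fin (N + 1)) ℂ) (y : Var N β → ℂ) : Prop :=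
  ∑ b, ∑ j, y (Sum.inr (b, j)) * eval (col y j) (G b) = 1

/-- the equations of the affine variety -/
def Eqs [Fintype β] (A : Set (MvPolynomial (Fin (N + 1)) ℂ))
    (G : β → MvPolynomial (Fin (N + 1)) ℂ) : Set (MvPolynomial (Var N β) ℂ) :=
  {e | (∃ i j k l : Fin (N + 1), e = X (Sum.inl (i, j)) * X (Sum.inl (k, l)) -
      X (Sum.inl (i, l)) * X (Sum.inl (k, j))) ∨
    e = ∑ i : Fin (N + 1), X (Sum.inl (i, i)) - 1 ∨
    (∃ F ∈ A, ∃ j, e = inCol β j F) ∨
    e = ∑ b, ∑ j, X (Sum.inr (b, j)) * inCol β j (G b) - 1}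

variable [Fintype β] {A : Set (MvPolynomial (Fin (N + 1)) ℂ)}
  {G : β → MvPolynomial (Fin (N + 1)) ℂ} {X' : Set (PP N)}

/-- the points of the affine variety lie over the points of `X'` -/
theorem eqs_iff (hA : ∀ F ∈ A, ∃ d : ℕ, F.IsHomogeneous d)
    (hG : ∀ b, ∃ d : ℕ, (G b).IsHomogeneous d)
    (hX : ∀ p : PP N, p ∈ X' ↔ (∀ F ∈ A, eval p.rep F = 0) ∧ ∃ b, eval p.rep (G b) ≠ 0)
    (y : Var N β → ℂ) :
    (∀ e ∈ Eqs A G, eval y e = 0) ↔ ∃ x ∈ X', Over (col y) x ∧ WC G y := by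
  constructor
  · intro h
    have hmin : ∀ i j k l : Fin (N + 1), y (Sum.inl (i, j)) * y (Sum.inl (k, l)) =
        y (Sum.inl (i, l)) * y (Sum.inl (k, j)) := by
      intro i j k l
      have := h _ (Or.inl ⟨i, j, k, l, rfl⟩)
      rw [map_sub, map_mul, map_mul, eval_X, eval_X, eval_X, eval_X] at this
      exact sub_eq_zero.1 this
    have htr : ∑ i : Fin (N + 1), y (Sum.inl (i, i)) = 1 := by
      have := h _ (Or.inr (Or.inl rfl))
      rw [map_sub, map_sum, map_one] at this
      simp only [eval_X] at this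
      exact sub_eq_zero.1 this
    have hAF : ∀ F ∈ A, ∀ j, eval (col y j) F = 0 := by
      intro F hF j
      have := h _ (Or.inr (Or.inr (Or.inl ⟨F, hF, j, rfl⟩)))
      rwa [eval_inCol] at this
    have hW : WC G y := by
      have := h _ (Or.inr (Or.inr (Or.inr rfl)))
      rw [map_sub, map_sum, map_one] at this
      simp only [map_sum, map_mul, eval_X, eval_inCol] at this
      exact sub_eq_zero.1 this
    obtain ⟨i₀, hi₀⟩ : ∃ i : Fin (N + 1), y (Sum.inl (i, i)) ≠ 0 := by
      by_contra hcon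
      push Not at hcon
      simp [hcon] at htr
    have hne : col y i₀ ≠ 0 := fun h0 => hi₀ (congrFun h0 i₀)
    have hover : Over (col y) (Projectivization.mk ℂ (col y i₀) hne) := by
      refine ⟨fun j => ?_, htr⟩
      rw [Projectivization.submodule_mk, Submodule.mem_span_singleton]
      refine ⟨y (Sum.inl (i₀, j)) / y (Sum.inl (i₀, i₀)), ?_⟩
      funext k
      show y (Sum.inl (i₀, j)) / y (Sum.inl (i₀, i₀)) * y (Sum.inl (k, i₀)) = y (Sum.inl (k, j))
      rw [div_mul_eq_mul_div, div_eq_iff hi₀, hmin i₀ j k i₀, mul_comm]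
    refine ⟨_, (hX _).2 ⟨fun F hF => ?_, ?_⟩, hover, hW⟩
    · obtain ⟨d, hd⟩ := hA F hF
      exact (hover.eval_iff hd).1 (hAF F hF)
    · by_contra hcon
      push Not at hcon
      have h1 : ∀ b j, eval (col y j) (G b) = 0 := fun b => by
        obtain ⟨d, hd⟩ := hG b
        exact (hover.eval_iff hd).2 (hcon b)
      unfold WC at hW
      simp [h1] at hW
  · rintro ⟨x, hx, hover, hW⟩ e he
    obtain ⟨hx1, hx2⟩ := (hX x).1 hx
    rcases he with ⟨i, j, k, l, rfl⟩ | rfl | ⟨F, hF, j, rfl⟩ | rfl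
    · rw [map_sub, map_mul, map_mul, eval_X, eval_X, eval_X, eval_X]
      obtain ⟨c, hc⟩ := hover.smul j
      obtain ⟨c', hc'⟩ := hover.smul l
      have h1 : ∀ i, y (Sum.inl (i, j)) = c * x.rep i := fun i => congrFun hc i
      have h2 : ∀ i, y (Sum.inl (i, l)) = c' * x.rep i := fun i => congrFun hc' i
      rw [h1, h1, h2, h2]
      ring
    · rw [map_sub, map_sum, map_one]
      simp only [eval_X]
      exact sub_eq_zero.2 hover.2
    · obtain ⟨d, hd⟩ := hA F hF
      rw [eval_inCol]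
      exact (hover.eval_iff hd).2 (hx1 F hF) j
    · rw [map_sub, map_sum, map_one]
      simp only [map_sum, map_mul, eval_X, eval_inCol]
      exact sub_eq_zero.2 hW

/-- there is a point over every point of `X'` -/
theorem exists_over (hG : ∀ b, ∃ d : ℕ, (G b).IsHomogeneous d) (x : PP N)
    (hx : ∃ b, eval x.rep (G b) ≠ 0) : ∃ y : Var N β → ℂ, Over (col y) x ∧ WC G y := by
  classical
  obtain ⟨b, hb⟩ := hx
  obtain ⟨d, hd⟩ := hG b
  obtain ⟨i₀, hi₀⟩ : ∃ i, x.rep i ≠ 0 := by
    by_contra hcon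
    push Not at hcon
    exact x.rep_nonzero (funext hcon)
  obtain ⟨v, hv⟩ : ∃ v, v = (x.rep i₀)⁻¹ • x.rep := ⟨_, rfl⟩
  have hvb : eval v (G b) ≠ 0 := by
    rw [hv, eval_smul_hom hd]
    exact mul_ne_zero (pow_ne_zero _ (inv_ne_zero hi₀)) hb
  obtain ⟨y, hy⟩ : ∃ y : Var N β → ℂ, y = Sum.elim (fun q => if q.2 = i₀ then v q.1 else 0)
    (fun q => if q = (b, i₀) then (eval v (G b))⁻¹ else 0) := ⟨_, rfl⟩
  have hcol : ∀ j, col y j = if j = i₀ then v else 0 := by
    intro j
    funext i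
    rw [hy]
    show (if j = i₀ then v i else 0) = _
    split_ifs <;> rfl
  refine ⟨y, ⟨fun j => ?_, ?_⟩, ?_⟩
  · rw [hcol]
    split_ifs
    · rw [hv, Projectivization.submodule_eq]
      exact Submodule.smul_mem _ _ (Submodule.mem_span_singleton_self _)
    · exact Submodule.zero_mem _
  · rw [Finset.sum_eq_single i₀]
    · rw [hcol, if_pos rfl, hv]
      exact inv_mul_cancel₀ hi₀
    · intro j _ hj
      rw [hcol, if_neg hj]
      rfl
    · intro h
      exact absurd (Finset.mem_univ _) h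
  · unfold WC
    rw [Finset.sum_eq_single b]
    · rw [Finset.sum_eq_single i₀]
      · rw [hcol, if_pos rfl, hy]
        show (if (b, i₀) = (b, i₀) then (eval v (G b))⁻¹ else 0) * _ = 1
        rw [if_pos rfl]
        exact inv_mul_cancel₀ hvb
      · intro j _ hj
        rw [hy]
        show (if (b, j) = (b, i₀) then (eval v (G b))⁻¹ else 0) * _ = 0
        rw [if_neg (fun h => hj (Prod.mk.inj h).2), zero_mul]
      · intro h
        exact absurd (Finset.mem_univ _) h
    · intro b' _ hb'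
      refine Finset.sum_eq_zero fun j _ => ?_
      rw [hy]
      show (if (b', j) = (b, i₀) then (eval v (G b))⁻¹ else 0) * _ = 0
      rw [if_neg (fun h => hb' (Prod.mk.inj h).1), zero_mul]
    · intro h
      exact absurd (Finset.mem_univ _) h

/-- **The lift.** -/
theorem lift (hA : ∀ F ∈ A, ∃ d : ℕ, F.IsHomogeneous d)
    (hG : ∀ b, ∃ d : ℕ, (G b).IsHomogeneous d)
    (hX : ∀ p : PP N, p ∈ X' ↔ (∀ F ∈ A, eval p.rep F = 0) ∧ ∃ b, eval p.rep (G b) ≠ 0)
    (Φ : PP N → PP N) (hΦ : ∀ x ∈ X', Φ x ∈ X')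
    (hreg : ∀ x ∈ X', ∃ (d e : ℕ) (F : Fin (N + 1) → MvPolynomial (Fin (N + 1)) ℂ)
          (g : MvPolynomial (Fin (N + 1)) ℂ),
          (∀ i, (F i).IsHomogeneous d) ∧ g.IsHomogeneous e ∧ eval x.rep g ≠ 0 ∧
          ∀ y ∈ X', eval y.rep g ≠ 0 →
            (fun i : Fin (N + 1) => eval y.rep (F i)) ≠ 0 ∧
            (fun i : Fin (N + 1) => eval y.rep (F i)) ∈ (Φ y).submodule) :
    ∃ p : Var N β → MvPolynomial (Var N β) ℂ, ∀ (y : Var N β → ℂ), ∀ x ∈ X',
      Over (col y) x → WC G y → Over (col (pstep p y)) (Φ x) ∧ WC G (pstep p y) := by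
  classical
  -- the ideal of the traces
  obtain ⟨J, hJ⟩ : ∃ J : Ideal (MvPolynomial (Var N β) ℂ), ∀ q, q ∈ J ↔
      ∃ Q : Fin (N + 1) → Fin (N + 1) → MvPolynomial (Var N β) ℂ,
        (∀ (y : Var N β → ℂ), ∀ x ∈ X', Over (col y) x → WC G y →
          ∀ j, (fun i => eval y (Q j i)) ∈ (Φ x).submodule) ∧ ∑ i, Q i i = q := by
    refine ⟨{ carrier := {q | ∃ Q : Fin (N + 1) → Fin (N + 1) → MvPolynomial (Var N β) ℂ,
        (∀ (y : Var N β → ℂ), ∀ x ∈ X', Over (col y) x → WC G y →
          ∀ j, (fun i => eval y (Q j i)) ∈ (Φ x).submodule) ∧ ∑ i, Q i i = q}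
              zero_mem' := ?_
              add_mem' := ?_
              smul_mem' := ?_ }, fun q => Iff.rfl⟩
    · rintro p q ⟨P, hP, rfl⟩ ⟨Q, hQ, rfl⟩
      refine ⟨fun j i => P j i + Q j i, fun y x hx ho hw j => ?_, Finset.sum_add_distrib⟩
      have := Submodule.add_mem _ (hP y x hx ho hw j) (hQ y x hx ho hw j)
      convert this using 1
      funext i
      exact map_add _ _ _
    · refine ⟨fun _ _ => 0, fun y x hx ho hw j => ?_, by simp⟩
      convert Submodule.zero_mem _ using 1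
      funext i
      exact map_zero _
    · rintro c q ⟨Q, hQ, rfl⟩
      refine ⟨fun j i => c * Q j i, fun y x hx ho hw j => ?_, by
        rw [smul_eq_mul, Finset.mul_sum]⟩
      have := Submodule.smul_mem _ (eval y c) (hQ y x hx ho hw j)
      convert this using 1
      funext i
      exact map_mul _ _ _
  obtain ⟨q, hq, hq1⟩ := null_on (Eqs A G) J (by
    intro y hy
    obtain ⟨x, hx, ho, hw⟩ := (eqs_iff hA hG hX y).1 hy
    obtain ⟨d, e, F, g, hF, hg, hgx, h⟩ := hreg x hx
    obtain ⟨j, c, hc, hj⟩ := ho.smul_ne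
    obtain ⟨b, hb⟩ : ∃ b, eval x.rep (F b) ≠ 0 := by
      by_contra hcon
      push Not at hcon
      exact (h x hx hgx).1 (funext hcon)
    refine ⟨_, (hJ _).2 ⟨fun j' i => if j' = b then inCol β j g * inCol β j (F i) else 0,
      fun y' x' hx' ho' hw' j' => ?_, rfl⟩, ?_⟩
    · by_cases hj' : j' = b
      · simp only [hj', if_true, map_mul, eval_inCol]
        obtain ⟨c', hc'⟩ := ho'.smul j
        by_cases hgx' : eval x'.rep g = 0
        · have : (fun i => eval (col y' j) g * eval (col y' j) (F i)) = 0 := by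
            funext i
            rw [hc', eval_smul_hom hg, hgx', mul_zero, zero_mul]
            rfl
          rw [this]
          exact Submodule.zero_mem _
        · have h1 := (h x' hx' hgx').2
          have h2 : (fun i => eval (col y' j) g * eval (col y' j) (F i)) =
              (eval (col y' j) g * c' ^ d) • fun i => eval x'.rep (F i) := by
            funext i
            rw [Pi.smul_apply, smul_eq_mul, hc', eval_smul_hom (hF i)]
            ring
          rw [h2]
          exact Submodule.smul_mem _ _ h1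
      · simp only [hj', if_false, map_zero]
        exact Submodule.zero_mem _
    · rw [Finset.sum_eq_single b]
      · beta_reduce
        rw [if_pos rfl, map_mul, eval_inCol, eval_inCol, hj, eval_smul_hom hg,
          eval_smul_hom (hF b)]
        exact mul_ne_zero (mul_ne_zero (pow_ne_zero _ hc) hgx)
          (mul_ne_zero (pow_ne_zero _ hc) hb)
      · intro i _ hi
        beta_reduce
        rw [if_neg hi]
      · intro h
        exact absurd (Finset.mem_univ _) h)
  obtain ⟨Q, hQ, rfl⟩ := (hJ q).1 hq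
  have hover : ∀ (y : Var N β → ℂ), ∀ x ∈ X', Over (col y) x → WC G y →
      Over (fun j i => eval y (Q j i)) (Φ x) := by
    intro y x hx ho hw
    refine ⟨hQ y x hx ho hw, ?_⟩
    have := hq1 y ((eqs_iff hA hG hX y).2 ⟨x, hx, ho, hw⟩)
    rwa [map_sum] at this
  -- the second part of the coordinates
  obtain ⟨q', hq', hq1'⟩ := null_on (Eqs A G)
    (Ideal.span (Set.range fun s : β × Fin (N + 1) => bind₁ (Q s.2) (G s.1))) (by
    intro y hy
    obtain ⟨x, hx, ho, hw⟩ := (eqs_iff hA hG hX y).1 hy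
    have ho' := hover y x hx ho hw
    obtain ⟨b, hb⟩ := ((hX (Φ x)).1 (hΦ x hx)).2
    obtain ⟨d, hd⟩ := hG b
    obtain ⟨j, c, hc, hj⟩ := ho'.smul_ne
    refine ⟨bind₁ (Q j) (G b), Ideal.subset_span ⟨(b, j), rfl⟩, ?_⟩
    have h1 : eval y (bind₁ (Q j) (G b)) = eval (fun i => eval y (Q j i)) (G b) := by
      show eval₂Hom (RingHom.id ℂ) y (bind₁ (Q j) (G b)) = _
      rw [eval₂Hom_bind₁]
      rfl
    rw [h1, hj, eval_smul_hom hd]
    exact mul_ne_zero (pow_ne_zero _ hc) hb)
  obtain ⟨c, rfl⟩ := Ideal.mem_span_range_iff_exists_fun.1 hq'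
  refine ⟨Sum.elim (fun s => Q s.2 s.1) c, fun y x hx ho hw => ⟨?_, ?_⟩⟩
  · exact hover y x hx ho hw
  · have h1 := hq1' y ((eqs_iff hA hG hX y).2 ⟨x, hx, ho, hw⟩)
    rw [map_sum, Fintype.sum_prod_type] at h1
    unfold WC
    rw [← h1]
    refine Finset.sum_congr rfl fun b _ => Finset.sum_congr rfl fun j _ => ?_
    rw [map_mul]
    congr 1
    show eval (fun i => eval y (Q j i)) (G b) = eval₂Hom (RingHom.id ℂ) y (bind₁ (Q j) (G b))
    rw [eval₂Hom_bind₁]
    rfl

end setup

end Pool.Agent.Q59.DM
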