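import Pool.Agent.Q59.DM.Jou

/-! # The dynamical Mordell-Lang conjecture: equivalences -/

set_option autoImplicit false

namespace Pool.Agent.Q59.DM

open MvPolynomial

/-- The dynamical Mordell-Lang conjecture for all quasiprojective varieties `X` over `ℂ`: `X` is a locally
closed subset of `ℙ ^ N`, `Φ : X → X` is a regular map, `α` a point of `X` and `V` a closed set. -/
def DML : Prop :=
  ∀ (N : ℕ) (X : Set (Projectivization ℂ (Fin (N + 1) → ℂ))),
    (∃ A B : Set (MvPolynomial (Fin (N + 1)) ℂ),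
      (∀ F ∈ A, ∃ d : ℕ, F.IsHomogeneous d) ∧ (∀ F ∈ B, ∃ d : ℕ, F.IsHomogeneous d) ∧
      ∀ p : Projectivization ℂ (Fin (N + 1) → ℂ), p ∈ X ↔
        ((∀ F ∈ A, MvPolynomial.eval p.rep F = 0) ∧ ∃ F ∈ B, MvPolynomial.eval p.rep F ≠ 0)) →
    ∀ Φ : Projectivization ℂ (Fin (N + 1) → ℂ) → Projectivization ℂ (Fin (N + 1) → ℂ),
      (∀ x ∈ X, Φ x ∈ X) →
      (∀ x ∈ X, ∃ (d e : ℕ) (F : Fin (N + 1) → MvPolynomial (Fin (N + 1)) ℂ)
          (g : MvPolynomial (Fin (N + 1)) ℂ),
          (∀ i, (F i).IsHomogeneous d) ∧ g.IsHomogeneous e ∧ MvPolynomial.eval x.rep g ≠ 0 ∧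
          ∀ y ∈ X, MvPolynomial.eval y.rep g ≠ 0 →
            (fun i : Fin (N + 1) => MvPolynomial.eval y.rep (F i)) ≠ 0 ∧
            (fun i : Fin (N + 1) => MvPolynomial.eval y.rep (F i)) ∈ (Φ y).submodule) →
      ∀ α ∈ X, ∀ V : Set (Projectivization ℂ (Fin (N + 1) → ℂ)),
        (∃ C : Set (MvPolynomial (Fin (N + 1)) ℂ),
          (∀ F ∈ C, ∃ d : ℕ, F.IsHomogeneous d) ∧
          ∀ p : Projectivization ℂ (Fin (N + 1) → ℂ), p ∈ V ↔
            ∀ F ∈ C, MvPolynomial.eval p.rep F = 0) →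
        IsAP {n : ℕ | Φ^[n] α ∈ V}

/-- finitely many polynomials suffice -/
theorem fin_sub {τ : Type} [Finite τ] (B : Set (MvPolynomial τ ℂ)) :
    ∃ B' : Finset (MvPolynomial τ ℂ), ↑B' ⊆ B ∧
      ∀ v : τ → ℂ, (∀ F ∈ B', eval v F = 0) → ∀ F ∈ B, eval v F = 0 := by
  have h1 : (Submodule.span (MvPolynomial τ ℂ) B).FG := IsNoetherian.noetherian _
  obtain ⟨B', hB', h2⟩ := (Submodule.fg_span_iff_fg_span_finset_subset B).1 h1
  refine ⟨B', hB', fun v hv F hF => ?_⟩
  have h3 : Ideal.span (B' : Set (MvPolynomial τ ℂ)) ≤ RingHom.ker (eval v) :=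
    Ideal.span_le.2 fun e he => hv e he
  have h4 : F ∈ Submodule.span (MvPolynomial τ ℂ) B := Submodule.subset_span hF
  rw [h2] at h4
  exact h3 h4

/-- **From simple maps to all quasiprojective varieties.** -/
theorem dml_of_weak (hW : WeakSimple) : DML := by
  classical
  intro N X hXAB Φ hΦ hreg α hα V hV
  obtain ⟨A, B, hA, hB, hX⟩ := hXAB
  obtain ⟨C, hC, hV⟩ := hV
  obtain ⟨B', hB', hBB⟩ := fin_sub B
  have hG : ∀ b : B', ∃ d : ℕ, (b : MvPolynomial (Fin (N + 1)) ℂ).IsHomogeneous d :=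
    fun b => hB b (hB' b.2)
  have hX' : ∀ p : PP N, p ∈ X ↔ (∀ F ∈ A, eval p.rep F = 0) ∧
      ∃ b : B', eval p.rep (b : MvPolynomial (Fin (N + 1)) ℂ) ≠ 0 := by
    intro p
    rw [hX]
    refine and_congr_right fun _ => ?_
    constructor
    · rintro ⟨F, hF, hFp⟩
      by_contra hcon
      push Not at hcon
      exact hFp (hBB p.rep (fun F' hF' => hcon ⟨F', hF'⟩) F hF)
    · rintro ⟨b, hb⟩
      exact ⟨b, hB' b.2, hb⟩
  obtain ⟨p, hp⟩ := lift (G := fun b : B' => (b : MvPolynomial (Fin (N + 1)) ℂ)) hA hG hX' Φ hΦ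
    hreg
  obtain ⟨y, hy1, hy2⟩ := exists_over (G := fun b : B' => (b : MvPolynomial (Fin (N + 1)) ℂ))
    hG α ((hX' α).1 hα).2
  have horb : ∀ n, Φ^[n] α ∈ X ∧ Over (col ((pstep p)^[n] y)) (Φ^[n] α) ∧
      WC (fun b : B' => (b : MvPolynomial (Fin (N + 1)) ℂ)) ((pstep p)^[n] y) := by
    intro n
    induction n with
    | zero => exact ⟨hα, hy1, hy2⟩
    | succ n ih =>
      rw [Function.iterate_succ_apply', Function.iterate_succ_apply']
      exact ⟨hΦ _ ih.1, hp _ _ ih.1 ih.2.1 ih.2.2⟩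
  obtain ⟨D, hD⟩ : ∃ D : Set (MvPolynomial (Var N B') ℂ),
    D = {e | ∃ F ∈ C, ∃ j, e = inCol B' j F} := ⟨_, rfl⟩
  obtain ⟨D', hD', hDD⟩ := fin_sub D
  have hset : {n : ℕ | Φ^[n] α ∈ V} =
      {n : ℕ | ∀ e ∈ D', n ∈ {n : ℕ | eval ((pstep p)^[n] y) e = 0}} := by
    ext n
    obtain ⟨-, ho, -⟩ := horb n
    rw [Set.mem_ofPred_eq, hV, Set.mem_ofPred_eq]
    constructor
    · intro h e he
      have he' := hD' he
      rw [hD] at he'
      obtain ⟨F, hF, j, rfl⟩ := he'
      obtain ⟨d, hd⟩ := hC F hF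
      show eval _ (inCol B' j F) = 0
      rw [eval_inCol]
      exact (ho.eval_iff hd).2 (h F hF) j
    · intro h F hF
      obtain ⟨d, hd⟩ := hC F hF
      refine (ho.eval_iff hd).1 fun j => ?_
      rw [← eval_inCol (β := B')]
      exact hDD _ h _ (by rw [hD]; exact ⟨F, hF, j, rfl⟩)
  rw [hset]
  exact (ep_biInter D' _ fun e _ => ep_of_weak hW p y e).isAP

section quad

variable {ι : Type}

/-- the coordinates and `1` -/
def ex (x : ι → ℂ) : Option ι → ℂ := fun o => o.elim 1 x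

/-- quadratic functions -/
def IsQuad [Fintype ι] (f : (ι → ℂ) → ℂ) : Prop :=
  ∃ c : Option ι → Option ι → ℂ, ∀ x, f x = ∑ j, ∑ k, c j k * (ex x j * ex x k)

theorem isQuad_mul [Fintype ι] (a : ℂ) (j k : Option ι) :
    IsQuad (fun x => a * (ex x j * ex x k)) := by
  classical
  refine ⟨fun j' k' => if j' = j then (if k' = k then a else 0) else 0, fun x => ?_⟩
  beta_reduce
  rw [Finset.sum_eq_single j]
  · rw [Finset.sum_eq_single k]
    · rw [if_pos rfl, if_pos rfl]
    · intro k' _ hk'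
      rw [if_pos rfl, if_neg hk', zero_mul]
    · intro h
      exact absurd (Finset.mem_univ _) h
  · intro j' _ hj'
    refine Finset.sum_eq_zero fun k' _ => ?_
    rw [if_neg hj', zero_mul]
  · intro h
    exact absurd (Finset.mem_univ _) h

theorem IsQuad.add [Fintype ι] {f g : (ι → ℂ) → ℂ} (hf : IsQuad f) (hg : IsQuad g) :
    IsQuad (fun x => f x + g x) := by
  obtain ⟨c, hc⟩ := hf
  obtain ⟨c', hc'⟩ := hg
  refine ⟨fun j k => c j k + c' j k, fun x => ?_⟩
  beta_reduce
  rw [hc, hc', ← Finset.sum_add_distrib]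
  refine Finset.sum_congr rfl fun j _ => ?_
  rw [← Finset.sum_add_distrib]
  refine Finset.sum_congr rfl fun k _ => ?_
  rw [add_mul]

theorem isQuad_zero [Fintype ι] : IsQuad (fun _ : ι → ℂ => (0 : ℂ)) :=
  ⟨fun _ _ => 0, fun x => by simp⟩

theorem IsQuad.sum [Fintype ι] {κ : Type} (s : Finset κ) (f : κ → (ι → ℂ) → ℂ)
    (h : ∀ k ∈ s, IsQuad (f k)) : IsQuad (fun x => ∑ k ∈ s, f k x) := by
  classical
  induction s using Finset.induction_on with
  | empty => simpa using isQuad_zero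
  | insert a s ha ih =>
    simp only [Finset.sum_insert ha]
    exact (h a (Finset.mem_insert_self _ _)).add
      (ih fun k hk => h k (Finset.mem_insert_of_mem hk))

theorem mon_cases (m : ι →₀ ℕ) (h : (m.sum fun _ e => e) ≤ 2) :
    ∃ j k : Option ι, ∀ x : ι → ℂ, (m.prod fun i e => x i ^ e) = ex x j * ex x k := by
  classical
  have hone : ∀ m : ι →₀ ℕ, (m.sum fun _ e => e) ≤ 1 →
      ∃ j : Option ι, ∀ x : ι → ℂ, (m.prod fun i e => x i ^ e) = ex x j := by
    intro m h
    by_cases hm : m = 0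
    · exact ⟨none, fun x => by rw [hm, Finsupp.prod_zero_index]; rfl⟩
    · obtain ⟨i, hi⟩ := Finsupp.ne_iff.1 hm
      have hi' : 1 ≤ m i := Nat.one_le_iff_ne_zero.2 hi
      obtain ⟨m', rfl⟩ : ∃ m', m = Finsupp.single i 1 + m' :=
        ⟨m - Finsupp.single i 1, (add_tsub_cancel_of_le (by simpa using hi')).symm⟩
      rw [Finsupp.sum_add_index' (fun _ => rfl) (fun _ _ _ => rfl),
        Finsupp.sum_single_index rfl] at h
      have hm' : m' = 0 := by
        have h0 : (m'.sum fun _ e => e) = 0 := by omega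
        ext j
        by_contra hj
        have h1 : m' j ≤ m'.sum fun _ e => e :=
          Finset.single_le_sum (f := fun a => m' a) (fun _ _ => Nat.zero_le _)
            (Finsupp.mem_support_iff.2 hj)
        rw [h0] at h1
        exact hj (Nat.le_zero.1 h1)
      refine ⟨some i, fun x => ?_⟩
      rw [hm', add_zero, Finsupp.prod_single_index (h := fun i e => x i ^ e) (pow_zero _), pow_one]
      rfl
  by_cases hm : m = 0
  · refine ⟨none, none, fun x => ?_⟩
    rw [hm, Finsupp.prod_zero_index]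
    show (1 : ℂ) = 1 * 1
    rw [mul_one]
  · obtain ⟨i, hi⟩ := Finsupp.ne_iff.1 hm
    have hi' : 1 ≤ m i := Nat.one_le_iff_ne_zero.2 hi
    obtain ⟨m', rfl⟩ : ∃ m', m = Finsupp.single i 1 + m' :=
      ⟨m - Finsupp.single i 1, (add_tsub_cancel_of_le (by simpa using hi')).symm⟩
    rw [Finsupp.sum_add_index' (fun _ => rfl) (fun _ _ _ => rfl),
      Finsupp.sum_single_index rfl] at h
    obtain ⟨k, hk⟩ := hone m' (by omega)
    refine ⟨some i, k, fun x => ?_⟩
    rw [Finsupp.prod_add_index' (h := fun i e => x i ^ e) (fun _ => pow_zero _)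
      (fun _ _ _ => pow_add _ _ _), Finsupp.prod_single_index (h := fun i e => x i ^ e)
      (pow_zero _), pow_one, hk]
    rfl

theorem isQuad_eval [Fintype ι] (F : MvPolynomial ι ℂ) (hF : F.totalDegree ≤ 2) :
    IsQuad (fun x => eval x F) := by
  have h1 : (fun x : ι → ℂ => eval x F) =
      fun x => ∑ m ∈ F.support, coeff m F * m.prod fun i e => x i ^ e := by
    funext x
    rw [eval_eq]
    rfl
  rw [h1]
  refine IsQuad.sum _ _ fun m hm => ?_
  obtain ⟨j, k, hjk⟩ := mon_cases m ((le_totalDegree hm).trans hF)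
  have h2 : (fun x : ι → ℂ => coeff m F * m.prod fun i e => x i ^ e) =
      fun x => coeff m F * (ex x j * ex x k) := by
    funext x
    rw [hjk]
  rw [h2]
  exact isQuad_mul _ _ _

/-- **From quasiprojective varieties to quadratic maps.** -/
theorem quad_of_dml (h : DML) [Fintype ι] (T : (ι → ℂ) → ι → ℂ)
    (hT : ∀ i, IsQuad (fun x => T x i)) (y : ι → ℂ) (i : ι) : IsAP {n : ℕ | T^[n] y i = 0} := by
  classical
  choose c hc using hT
  simp only at hc
  obtain ⟨N, hN⟩ : ∃ N, N = Fintype.card ι := ⟨_, rfl⟩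
  have e : Option ι ≃ Fin (N + 1) := Fintype.equivFinOfCardEq (by rw [Fintype.card_option, hN])
  obtain ⟨F, hFd⟩ : ∃ F : Option ι → MvPolynomial (Fin (N + 1)) ℂ, F = fun o =>
      o.elim (X (e none) * X (e none))
        (fun i => ∑ j, ∑ k, C (c i j k) * (X (e j) * X (e k))) := ⟨_, rfl⟩
  have hFh : ∀ o, (F o).IsHomogeneous 2 := by
    intro o
    have hXX : ∀ a b : Fin (N + 1), (X a * X b : MvPolynomial (Fin (N + 1)) ℂ).IsHomogeneous 2 :=
      fun a b => (isHomogeneous_X ℂ a).mul (isHomogeneous_X ℂ b)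
    rw [hFd]
    cases o with
    | none => exact hXX _ _
    | some i =>
      refine IsHomogeneous.sum _ _ _ fun j _ => IsHomogeneous.sum _ _ _ fun k _ => ?_
      have := (isHomogeneous_C (Fin (N + 1)) (c i j k)).mul (hXX (e j) (e k))
      rwa [zero_add] at this
  obtain ⟨evF, hev⟩ : ∃ evF : (Fin (N + 1) → ℂ) → Fin (N + 1) → ℂ,
    evF = fun v a => eval v (F (e.symm a)) := ⟨_, rfl⟩
  have hev_smul : ∀ (a : ℂ) (v : Fin (N + 1) → ℂ), evF (a • v) = a ^ 2 • evF v := by
    intro a v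
    rw [hev]
    funext b
    exact eval_smul_hom (hFh _) a v
  have hev_none : ∀ v, evF v (e none) = v (e none) * v (e none) := by
    intro v
    rw [hev]
    show eval v (F (e.symm (e none))) = _
    rw [Equiv.symm_apply_apply, hFd]
    show eval v (X (e none) * X (e none)) = _
    rw [map_mul, eval_X]
  obtain ⟨emb, hemb⟩ : ∃ emb : (ι → ℂ) → Fin (N + 1) → ℂ, emb = fun x a => ex x (e.symm a) :=
    ⟨_, rfl⟩
  have hemb_e : ∀ x o, emb x (e o) = ex x o := by
    intro x o
    rw [hemb]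
    show ex x (e.symm (e o)) = ex x o
    rw [Equiv.symm_apply_apply]
  have hemb_ne : ∀ x, emb x ≠ 0 := by
    intro x h0
    have h1 := hemb_e x none
    rw [h0] at h1
    exact zero_ne_one h1
  have hev_emb : ∀ x, evF (emb x) = emb (T x) := by
    intro x
    funext a
    obtain ⟨o, rfl⟩ := e.surjective a
    rw [hemb_e]
    cases o with
    | none =>
      rw [hev_none, hemb_e]
      exact mul_one 1
    | some i =>
      rw [hev]
      show eval _ (F (e.symm (e (some i)))) = T x i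
      rw [Equiv.symm_apply_apply, hc i, hFd]
      show eval (emb x) (∑ j, ∑ k, C (c i j k) * (X (e j) * X (e k))) = _
      rw [map_sum]
      refine Finset.sum_congr rfl fun j _ => ?_
      rw [map_sum]
      refine Finset.sum_congr rfl fun k _ => ?_
      rw [map_mul, eval_C, map_mul, eval_X, eval_X, hemb_e, hemb_e]
  obtain ⟨Φ, hΦd⟩ : ∃ Φ : PP N → PP N, Φ = fun p =>
    if hp : evF p.rep ≠ 0 then Projectivization.mk ℂ (evF p.rep) hp else p := ⟨_, rfl⟩
  have hne : ∀ p : PP N, p.rep (e none) ≠ 0 → evF p.rep ≠ 0 := by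
    intro p hp h0
    have := hev_none p.rep
    rw [h0] at this
    exact mul_ne_zero hp hp this.symm
  have hΦ : ∀ (p : PP N) (hp : evF p.rep ≠ 0), Φ p = Projectivization.mk ℂ (evF p.rep) hp := by
    intro p hp
    rw [hΦd]
    show (if hp : evF p.rep ≠ 0 then Projectivization.mk ℂ (evF p.rep) hp else p) = _
    rw [dif_pos hp]
  have key := h N {p | p.rep (e none) ≠ 0} ⟨∅, {X (e none)}, by simp, by
      intro F' hF'
      rw [Set.mem_singleton_iff] at hF'
      exact ⟨1, hF' ▸ isHomogeneous_X ℂ _⟩, by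
      intro p
      simp⟩ Φ (by
      intro p hp
      rw [hΦ p (hne p hp)]
      obtain ⟨a, ha⟩ := Projectivization.exists_smul_eq_mk_rep ℂ (evF p.rep) (hne p hp)
      show (Projectivization.mk ℂ (evF p.rep) (hne p hp)).rep (e none) ≠ 0
      rw [← ha]
      show (a : ℂ) * evF p.rep (e none) ≠ 0
      rw [hev_none]
      exact mul_ne_zero a.ne_zero (mul_ne_zero hp hp)) (by
      intro p hp
      refine ⟨2, 1, fun a => F (e.symm a), X (e none), fun a => hFh _, isHomogeneous_X ℂ _, by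
        rw [eval_X]; exact hp, fun q hq _ => ?_⟩
      have hq' : evF q.rep ≠ 0 := hne q hq
      rw [hΦ q hq', Projectivization.submodule_mk]
      have h1 : (fun a => eval q.rep (F (e.symm a))) = evF q.rep := by rw [hev]
      rw [h1]
      exact ⟨hq', Submodule.mem_span_singleton_self _⟩)
    (Projectivization.mk ℂ (emb y) (hemb_ne y)) (by
      obtain ⟨a, ha⟩ := Projectivization.exists_smul_eq_mk_rep ℂ (emb y) (hemb_ne y)
      show (Projectivization.mk ℂ (emb y) (hemb_ne y)).rep (e none) ≠ 0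
      rw [← ha]
      show (a : ℂ) * emb y (e none) ≠ 0
      rw [hemb_e]
      exact mul_ne_zero a.ne_zero one_ne_zero)
    {p | p.rep (e (some i)) = 0} ⟨{X (e (some i))}, by
      intro F' hF'
      rw [Set.mem_singleton_iff] at hF'
      exact ⟨1, hF' ▸ isHomogeneous_X ℂ _⟩, by
      intro p
      simp⟩
  have horb : ∀ n, Φ^[n] (Projectivization.mk ℂ (emb y) (hemb_ne y)) =
      Projectivization.mk ℂ (emb (T^[n] y)) (hemb_ne _) := by
    intro n
    induction n with
    | zero => rfl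
    | succ n ih =>
      rw [Function.iterate_succ_apply', ih]
      obtain ⟨z, hz⟩ : ∃ z, z = T^[n] y := ⟨_, rfl⟩
      have hz' : T^[n + 1] y = T z := by rw [Function.iterate_succ_apply', hz]
      simp only [← hz, hz']
      obtain ⟨a, ha⟩ := Projectivization.exists_smul_eq_mk_rep ℂ (emb z) (hemb_ne z)
      have h1 : evF (Projectivization.mk ℂ (emb z) (hemb_ne z)).rep =
          ((a : ℂ) ^ 2) • emb (T z) := by
        rw [← ha]
        show evF ((a : ℂ) • emb z) = _
        rw [hev_smul, hev_emb]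
      have h2 : evF (Projectivization.mk ℂ (emb z) (hemb_ne z)).rep ≠ 0 := by
        rw [h1]
        exact smul_ne_zero (pow_ne_zero _ a.ne_zero) (hemb_ne _)
      rw [hΦ _ h2, Projectivization.mk_eq_mk_iff']
      exact ⟨(a : ℂ) ^ 2, h1.symm⟩
  have hset : {n : ℕ | T^[n] y i = 0} =
      {n : ℕ | Φ^[n] (Projectivization.mk ℂ (emb y) (hemb_ne y)) ∈
        {p : PP N | p.rep (e (some i)) = 0}} := by
    ext n
    rw [Set.mem_ofPred_eq, Set.mem_ofPred_eq, horb, Set.mem_ofPred_eq]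
    obtain ⟨a, ha⟩ := Projectivization.exists_smul_eq_mk_rep ℂ (emb (T^[n] y)) (hemb_ne _)
    rw [← ha]
    show _ ↔ (a : ℂ) * emb (T^[n] y) (e (some i)) = 0
    rw [hemb_e]
    show _ ↔ (a : ℂ) * T^[n] y i = 0
    rw [mul_eq_zero, or_iff_right a.ne_zero]
  rw [hset]
  exact key

end quad

/-- `F : ℂ ^ σ → ℂ ^ σ` is birational: `x_i = G_i(F(x)) / D(F(x))` with polynomials `G_i`, `D`,
`D(F(x)) ≠ 0`. -/
def IsBirational {σ : Type} (F : σ → MvPolynomial σ ℂ) : Prop :=
  ∃ (D : MvPolynomial σ ℂ) (G : σ → MvPolynomial σ ℂ), bind₁ F D ≠ 0 ∧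
    ∀ i, bind₁ F (G i) = X i * bind₁ F D

/-- the conjecture for birational polynomial maps of degree two and coordinate hyperplanes -/
def BirQuad : Prop :=
  ∀ (σ : Type) [Finite σ] (F : σ → MvPolynomial σ ℂ), (∀ i, (F i).totalDegree ≤ 2) →
    IsBirational F → ∀ (y : σ → ℂ) (i : σ), IsAP {n : ℕ | (pstep F)^[n] y i = 0}

/-- The Hénon type map `(x, z, u) ↦ (Θ(x) + u z, x, u)`, `Θ = stepOf op`. -/
def henon {N : ℕ} (op : Fin N → Bool × Fin N × Fin N)
    (s : (Fin N → ℂ) × (Fin N → ℂ) × ℂ) : (Fin N → ℂ) × (Fin N → ℂ) × ℂ :=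
  (fun i => stepOf op s.1 i + s.2.2 * s.2.1 i, s.1, s.2.2)

/-- the conjecture for Hénon type maps and coordinate hyperplanes -/
def HenonDML : Prop :=
  ∀ (N : ℕ) (op : Fin N → Bool × Fin N × Fin N) (s : (Fin N → ℂ) × (Fin N → ℂ) × ℂ) (i : Fin N),
    IsAP {n : ℕ | ((henon op)^[n] s).1 i = 0}

theorem birQuad_of_dml (h : DML) : BirQuad := by
  intro σ _ F hF _ y i
  have : Fintype σ := Fintype.ofFinite σ
  exact quad_of_dml h (pstep F) (fun i => isQuad_eval (F i) (hF i)) y i

/-- the Hénon type map as a polynomial map -/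
noncomputable def hpoly {N : ℕ} (op : Fin N → Bool × Fin N × Fin N) :
    Fin N ⊕ Fin N ⊕ Unit → MvPolynomial (Fin N ⊕ Fin N ⊕ Unit) ℂ
  | Sum.inl i => (if (op i).1 then X (Sum.inl (op i).2.1) + X (Sum.inl (op i).2.2)
      else X (Sum.inl (op i).2.1) * X (Sum.inl (op i).2.2)) +
        X (Sum.inr (Sum.inr ())) * X (Sum.inr (Sum.inl i))
  | Sum.inr (Sum.inl i) => X (Sum.inl i)
  | Sum.inr (Sum.inr _) => X (Sum.inr (Sum.inr ()))

/-- the vector of the coordinates -/
def pack {N : ℕ} (s : (Fin N → ℂ) × (Fin N → ℂ) × ℂ) : Fin N ⊕ Fin N ⊕ Unit → ℂ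
  | Sum.inl i => s.1 i
  | Sum.inr (Sum.inl i) => s.2.1 i
  | Sum.inr (Sum.inr _) => s.2.2

theorem pstep_hpoly {N : ℕ} (op : Fin N → Bool × Fin N × Fin N)
    (s : (Fin N → ℂ) × (Fin N → ℂ) × ℂ) : pstep (hpoly op) (pack s) = pack (henon op s) := by
  funext v
  rcases v with i | i | i
  · show eval (pack s) ((if (op i).1 then X (Sum.inl (op i).2.1) + X (Sum.inl (op i).2.2)
      else X (Sum.inl (op i).2.1) * X (Sum.inl (op i).2.2)) +
        X (Sum.inr (Sum.inr ())) * X (Sum.inr (Sum.inl i))) = gate (op i) s.1 + s.2.2 * s.2.1 i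
    unfold gate
    split_ifs
    · rw [map_add, map_add, map_mul, eval_X, eval_X, eval_X, eval_X]
      rfl
    · rw [map_add, map_mul, map_mul, eval_X, eval_X, eval_X, eval_X]
      rfl
  · show eval (pack s) (X (Sum.inl i)) = s.1 i
    rw [eval_X]
    rfl
  · show eval (pack s) (X (Sum.inr (Sum.inr ()))) = s.2.2
    rw [eval_X]
    rfl

theorem hpoly_degree {N : ℕ} (op : Fin N → Bool × Fin N × Fin N) (v : Fin N ⊕ Fin N ⊕ Unit) :
    (hpoly op v).totalDegree ≤ 2 := by
  have hXX : ∀ a b : Fin N ⊕ Fin N ⊕ Unit,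
      (X a * X b : MvPolynomial (Fin N ⊕ Fin N ⊕ Unit) ℂ).totalDegree ≤ 2 := fun a b =>
    (totalDegree_mul _ _).trans (by rw [totalDegree_X, totalDegree_X])
  have hX : ∀ a : Fin N ⊕ Fin N ⊕ Unit,
      (X a : MvPolynomial (Fin N ⊕ Fin N ⊕ Unit) ℂ).totalDegree ≤ 2 := fun a => by
    rw [totalDegree_X]
    norm_num
  rcases v with i | i | i
  · show ((if (op i).1 then X (Sum.inl (op i).2.1) + X (Sum.inl (op i).2.2)
      else X (Sum.inl (op i).2.1) * X (Sum.inl (op i).2.2)) +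
        X (Sum.inr (Sum.inr ())) * X (Sum.inr (Sum.inl i)) :
          MvPolynomial (Fin N ⊕ Fin N ⊕ Unit) ℂ).totalDegree ≤ 2
    refine (totalDegree_add _ _).trans (max_le ?_ (hXX _ _))
    split_ifs
    · exact (totalDegree_add _ _).trans (max_le (hX _) (hX _))
    · exact hXX _ _
  · exact hX _
  · exact hX _

theorem hpoly_birational {N : ℕ} (op : Fin N → Bool × Fin N × Fin N) :
    IsBirational (hpoly op) := by
  refine ⟨X (Sum.inr (Sum.inr ())), fun v => Sum.elim
    (fun i => X (Sum.inr (Sum.inl i)) * X (Sum.inr (Sum.inr ())))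
    (Sum.elim (fun i => X (Sum.inl i) -
      (if (op i).1 then X (Sum.inr (Sum.inl (op i).2.1)) + X (Sum.inr (Sum.inl (op i).2.2))
        else X (Sum.inr (Sum.inl (op i).2.1)) * X (Sum.inr (Sum.inl (op i).2.2))))
      (fun _ => X (Sum.inr (Sum.inr ())) * X (Sum.inr (Sum.inr ())))) v, ?_, ?_⟩
  · rw [bind₁_X_right]
    exact X_ne_zero _
  · intro v
    rcases v with i | i | i
    · simp only [Sum.elim_inl, map_mul, bind₁_X_right]
      rfl
    · simp only [Sum.elim_inl, Sum.elim_inr, map_sub, bind₁_X_right]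
      split_ifs with h
      · simp only [map_add, bind₁_X_right, hpoly, h, if_true]
        ring
      · simp only [map_mul, bind₁_X_right, hpoly, h]
        simp only [Bool.false_eq_true, if_false]
        ring
    · simp only [Sum.elim_inr, map_mul, bind₁_X_right]
      rfl

theorem henon_of_birQuad (h : BirQuad) : HenonDML := by
  intro N op s i
  have h1 := h _ (hpoly op) (hpoly_degree op) (hpoly_birational op) (pack s) (Sum.inl i)
  have h2 : ∀ n, (pstep (hpoly op))^[n] (pack s) = pack ((henon op)^[n] s) := by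
    intro n
    induction n with
    | zero => rfl
    | succ n ih => rw [Function.iterate_succ_apply', ih, pstep_hpoly,
        Function.iterate_succ_apply']
  simp only [h2] at h1
  exact h1

theorem weak_of_henon (h : HenonDML) : WeakSimple := by
  intro N op y i hinf
  have h1 : ∀ n (z : Fin N → ℂ), ((henon op)^[n] (y, z, 0)).1 = (stepOf op)^[n] y ∧
      ((henon op)^[n] (y, z, 0)).2.2 = 0 := by
    intro n z
    induction n with
    | zero => exact ⟨rfl, rfl⟩
    | succ n ih =>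
      rw [Function.iterate_succ_apply', Function.iterate_succ_apply']
      refine ⟨?_, ih.2⟩
      funext j
      show stepOf op ((henon op)^[n] (y, z, 0)).1 j +
        ((henon op)^[n] (y, z, 0)).2.2 * _ = _
      rw [ih.1, ih.2, zero_mul, add_zero]
  have h2 := (h N op (y, 0, 0) i).ep
  simp only [(h1 _ 0).1] at h2
  obtain ⟨a, b, hb, hab⟩ := h2.contains hinf
  exact ⟨a, b, hb, hab⟩

/-- **The equivalences.** -/
theorem tfae : [DML, BirQuad, HenonDML, WeakSimple].TFAE := by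
  tfae_have 1 → 2 := birQuad_of_dml
  tfae_have 2 → 3 := henon_of_birQuad
  tfae_have 3 → 4 := weak_of_henon
  tfae_have 4 → 1 := dml_of_weak
  tfae_finish

end Pool.Agent.Q59.DM
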