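import Pool.Agent.Q59.DM.AP

/-! # Polynomial dynamical systems: reduction to sums and products of two coordinates -/

set_option autoImplicit false

namespace Pool.Agent.Q59.DM

open MvPolynomial

/-- the sum (`true`) or the product (`false`) of two coordinates -/
def gate {ι : Type} (o : Bool × ι × ι) (x : ι → ℂ) : ℂ :=
  if o.1 then x o.2.1 + x o.2.2 else x o.2.1 * x o.2.2

/-- The map `ℂ ^ ι → ℂ ^ ι` each of whose coordinates is the sum or the product of two coordinates. -/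
def stepOf {ι : Type} (op : ι → Bool × ι × ι) (x : ι → ℂ) : ι → ℂ := fun i => gate (op i) x

/-- a polynomial map -/
noncomputable def pstep {σ : Type} (p : σ → MvPolynomial σ ℂ) (x : σ → ℂ) : σ → ℂ :=
  fun i => eval x (p i)

/-- expressions of depth exactly `l` -/
def L (τ : Type) : ℕ → Type
  | 0 => τ
  | l + 1 => Bool × L τ l × L τ l

instance finite_L (τ : Type) [Finite τ] : ∀ l, Finite (L τ l)
  | 0 => inferInstanceAs (Finite τ)
  | l + 1 => by
    have := finite_L τ l
    exact inferInstanceAs (Finite (Bool × L τ l × L τ l))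

/-- the value of an expression -/
def ev {τ : Type} (x : τ → ℂ) : (l : ℕ) → L τ l → ℂ
  | 0, v => x v
  | l + 1, e => if e.1 then ev x l e.2.1 + ev x l e.2.2 else ev x l e.2.1 * ev x l e.2.2

theorem ev_zero {τ : Type} (x : τ → ℂ) (v : τ) : ev x 0 v = x v := rfl

theorem ev_succ {τ : Type} (x : τ → ℂ) (l : ℕ) (b : Bool) (p q : L τ l) :
    ev x (l + 1) (b, p, q) = if b then ev x l p + ev x l q else ev x l p * ev x l q := rfl

/-- renaming the variables -/
def L.map {τ τ' : Type} (f : τ → τ') : (l : ℕ) → L τ l → L τ' l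
  | 0, v => f v
  | l + 1, e => (e.1, L.map f l e.2.1, L.map f l e.2.2)

theorem ev_map {τ τ' : Type} (f : τ → τ') (x : τ' → ℂ) : ∀ (l : ℕ) (e : L τ l),
    ev x l (L.map f l e) = ev (x ∘ f) l e
  | 0, v => rfl
  | l + 1, (b, p, q) => by
    show (if b then ev x l (L.map f l p) + ev x l (L.map f l q)
      else ev x l (L.map f l p) * ev x l (L.map f l q)) = _
    rw [ev_map f x l p, ev_map f x l q]
    rfl

section comp

variable {σ : Type}

/-- the values of the variables and constants -/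
def vals (K : Finset ℂ) (x : σ → ℂ) : σ ⊕ K → ℂ := Sum.elim x (fun c => (c : ℂ))

/-- the polynomial `p` is given by an expression of depth `l` in the variables and the constants
in `K` -/
def Comp (K : Finset ℂ) (l : ℕ) (p : MvPolynomial σ ℂ) : Prop :=
  ∃ e : L (σ ⊕ K) l, ∀ x : σ → ℂ, ev (vals K x) l e = eval x p

theorem Comp.mono {K K' : Finset ℂ} (h : K ⊆ K') {l : ℕ} {p : MvPolynomial σ ℂ}
    (hp : Comp K l p) : Comp K' l p := by
  obtain ⟨e, he⟩ := hp
  refine ⟨L.map (Sum.map id fun c => ⟨c, h c.2⟩) l e, fun x => ?_⟩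
  rw [ev_map, ← he x]
  congr 1
  funext v
  rcases v with v | v <;> rfl

theorem comp_C {K : Finset ℂ} {c : ℂ} (hc : c ∈ K) :
    Comp K 0 (C c : MvPolynomial σ ℂ) :=
  ⟨Sum.inr ⟨c, hc⟩, fun x => by rw [ev_zero, eval_C]; rfl⟩

theorem comp_X (K : Finset ℂ) (i : σ) : Comp K 0 (X i : MvPolynomial σ ℂ) :=
  ⟨Sum.inl i, fun x => by rw [ev_zero, eval_X]; rfl⟩

theorem Comp.add {K : Finset ℂ} {l : ℕ} {p q : MvPolynomial σ ℂ} (hp : Comp K l p)
    (hq : Comp K l q) : Comp K (l + 1) (p + q) := by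
  obtain ⟨e, he⟩ := hp
  obtain ⟨e', he'⟩ := hq
  exact ⟨(true, e, e'), fun x => by rw [ev_succ, he, he', if_pos rfl, map_add]⟩

theorem Comp.mul {K : Finset ℂ} {l : ℕ} {p q : MvPolynomial σ ℂ} (hp : Comp K l p)
    (hq : Comp K l q) : Comp K (l + 1) (p * q) := by
  obtain ⟨e, he⟩ := hp
  obtain ⟨e', he'⟩ := hq
  exact ⟨(false, e, e'), fun x => by rw [ev_succ, he, he', if_neg (by simp), map_mul]⟩

theorem comp_zero {K : Finset ℂ} (h0 : (0 : ℂ) ∈ K) : ∀ l, Comp K l (0 : MvPolynomial σ ℂ)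
  | 0 => by simpa using comp_C (σ := σ) h0
  | l + 1 => by simpa using (comp_zero h0 l).add (comp_zero h0 l)

theorem Comp.le {K : Finset ℂ} (h0 : (0 : ℂ) ∈ K) {l l' : ℕ} (h : l ≤ l')
    {p : MvPolynomial σ ℂ} (hp : Comp K l p) : Comp K l' p := by
  induction l', h using Nat.le_induction with
  | base => exact hp
  | succ l' _ ih => simpa using ih.add (comp_zero h0 l')

theorem exists_comp (p : MvPolynomial σ ℂ) :
    ∃ K : Finset ℂ, (0 : ℂ) ∈ K ∧ ∃ l, Comp K l p := by
  classical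
  induction p using MvPolynomial.induction_on with
  | C a => exact ⟨{0, a}, by simp, 0, comp_C (by simp)⟩
  | add p q hp hq =>
    obtain ⟨K, h0, l, hp⟩ := hp
    obtain ⟨K', h0', l', hq⟩ := hq
    have h1 : (0 : ℂ) ∈ K ∪ K' := Finset.mem_union_left _ h0
    exact ⟨K ∪ K', h1, max l l' + 1,
      ((hp.mono Finset.subset_union_left).le h1 (le_max_left _ _)).add
        ((hq.mono Finset.subset_union_right).le h1 (le_max_right _ _))⟩
  | mul_X p i hp =>
    obtain ⟨K, h0, l, hp⟩ := hp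
    exact ⟨K, h0, l + 1, hp.mul ((comp_X K i).le h0 (Nat.zero_le _))⟩

theorem exists_comp_family [Finite σ] (p : σ → MvPolynomial σ ℂ) :
    ∃ K : Finset ℂ, ∃ k : ℕ, ∃ E : σ ⊕ K → L (σ ⊕ K) (k + 1),
      ∀ (x : σ → ℂ) (v : σ ⊕ K), ev (vals K x) (k + 1) (E v) = vals K (pstep p x) v := by
  classical
  have : Fintype σ := Fintype.ofFinite σ
  choose K h0 l hp using fun i => exists_comp (p i)
  obtain ⟨K', hK'⟩ : ∃ K' : Finset ℂ, K' = insert 0 (Finset.univ.biUnion K) := ⟨_, rfl⟩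
  have h0' : (0 : ℂ) ∈ K' := by rw [hK']; exact Finset.mem_insert_self _ _
  obtain ⟨k, hk⟩ : ∃ k, k = ∑ i, l i := ⟨_, rfl⟩
  have hle : ∀ i, l i ≤ k + 1 := fun i => by
    rw [hk]
    exact (Finset.single_le_sum (f := l) (fun _ _ => Nat.zero_le _) (Finset.mem_univ i)).trans
      (Nat.le_succ _)
  have hsub : ∀ i, K i ⊆ K' := fun i => by
    rw [hK']
    exact (Finset.subset_biUnion_of_mem K (Finset.mem_univ i)).trans (Finset.subset_insert _ _)
  have h1 : ∀ v : σ ⊕ K', ∃ e : L (σ ⊕ K') (k + 1),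
      ∀ x : σ → ℂ, ev (vals K' x) (k + 1) e = vals K' (pstep p x) v := by
    rintro (i | c)
    · obtain ⟨e, he⟩ := ((hp i).mono (hsub i)).le h0' (hle i)
      exact ⟨e, fun x => by rw [he]; rfl⟩
    · obtain ⟨e, he⟩ := (comp_C (σ := σ) c.2).le h0' (Nat.zero_le (k + 1))
      exact ⟨e, fun x => by rw [he, eval_C]; rfl⟩
  choose E hE using h1
  exact ⟨K', k, E, fun x v => hE v x⟩

end comp

section pipe

variable {τ : Type}

/-- the registers -/
abbrev Reg (τ : Type) (k : ℕ) := Σ l : Fin (k + 1), L τ l.1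

/-- the operations of the registers -/
def pipe {k : ℕ} (E : τ → L τ (k + 1)) : Reg τ k → Bool × Reg τ k × Reg τ k
  | ⟨⟨0, _⟩, v⟩ => ((E v).1, ⟨⟨k, Nat.lt_succ_self k⟩, (E v).2.1⟩,
      ⟨⟨k, Nat.lt_succ_self k⟩, (E v).2.2⟩)
  | ⟨⟨l + 1, h⟩, e⟩ => (e.1, ⟨⟨l, Nat.lt_of_succ_lt h⟩, e.2.1⟩, ⟨⟨l, Nat.lt_of_succ_lt h⟩, e.2.2⟩)

/-- **The pipeline.** -/
theorem pipe_orbit {k : ℕ} (E : τ → L τ (k + 1)) (Z : ℕ → τ → ℂ)
    (hZ : ∀ n v, Z (n + 1) v = ev (Z n) (k + 1) (E v)) (t : ℕ) :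
    (stepOf (pipe E))^[t] (fun r => ev (Z 0) r.1 r.2) =
      fun r => ev (Z ((t + k - r.1) / (k + 1))) r.1 r.2 := by
  induction t with
  | zero =>
    funext r
    have : (0 + k - (r.1 : ℕ)) / (k + 1) = 0 := Nat.div_eq_of_lt (by omega)
    rw [Function.iterate_zero, id, this]
  | succ t ih =>
    rw [Function.iterate_succ_apply', ih]
    funext r
    obtain ⟨⟨l, hl⟩, e⟩ := r
    cases l with
    | zero =>
      have h1 : (t + 1 + k - 0) / (k + 1) = t / (k + 1) + 1 := by
        rw [Nat.sub_zero, Nat.add_assoc, Nat.add_comm 1 k, Nat.add_div_right _ (Nat.succ_pos k)]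
      have h2 : t + k - k = t := Nat.add_sub_cancel t k
      have key : ∀ v : τ, gate (ι := Reg τ k) ((E v).1, ⟨⟨k, Nat.lt_succ_self k⟩, (E v).2.1⟩,
          ⟨⟨k, Nat.lt_succ_self k⟩, (E v).2.2⟩)
          (fun r => ev (Z ((t + k - r.1) / (k + 1))) r.1 r.2) =
            Z ((t + 1 + k - 0) / (k + 1)) v := by
        intro v
        rw [h1, hZ]
        unfold gate
        simp only [h2]
        rfl
      exact key e
    | succ l =>
      have h1 : (t + 1 + k - (l + 1)) / (k + 1) = (t + k - l) / (k + 1) := by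
        congr 1
        omega
      show gate (ι := Reg τ k)
        (e.1, ⟨⟨l, Nat.lt_of_succ_lt hl⟩, e.2.1⟩, ⟨⟨l, Nat.lt_of_succ_lt hl⟩, e.2.2⟩) _ =
        ev (Z ((t + 1 + k - (l + 1)) / (k + 1))) (l + 1) e
      rw [h1]
      rfl

end pipe

/-- changing the index set -/
theorem stepOf_equiv {ι κ : Type} (f : ι ≃ κ) (op : ι → Bool × ι × ι) (x : ι → ℂ) (n : ℕ) :
    (stepOf (fun j : κ => ((op (f.symm j)).1, f (op (f.symm j)).2.1, f (op (f.symm j)).2.2)))^[n]
      (x ∘ f.symm) = ((stepOf op)^[n] x) ∘ f.symm := by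
  induction n with
  | zero => rfl
  | succ n ih =>
    rw [Function.iterate_succ_apply', ih, Function.iterate_succ_apply']
    funext j
    show gate _ _ = gate _ _
    unfold gate
    simp only [Function.comp_apply, Equiv.symm_apply_apply]

/-- **Simulation of a polynomial system.** There are a simple map, a starting point, a coordinate and
a `k` such that the coordinate at the time `t` is the coordinate `i` of the polynomial system at the time
`⌈t / (k + 1)⌉`. -/
theorem simulate {σ : Type} [Finite σ] (p : σ → MvPolynomial σ ℂ) (x : σ → ℂ) (i : σ) :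
    ∃ (N : ℕ) (op : Fin N → Bool × Fin N × Fin N) (y : Fin N → ℂ) (j : Fin N) (k : ℕ),
      ∀ t, (stepOf op)^[t] y j = (pstep p)^[(t + k) / (k + 1)] x i := by
  classical
  obtain ⟨K, k, E, hE⟩ := exists_comp_family p
  have : Finite (Reg (σ ⊕ K) k) := inferInstance
  obtain ⟨N, ⟨f⟩⟩ := Finite.exists_equiv_fin (Reg (σ ⊕ K) k)
  have h1 := pipe_orbit E (fun n => vals K ((pstep p)^[n] x)) (fun n v => by
    rw [hE, Function.iterate_succ_apply'])
  refine ⟨N, fun j : Fin N => ((pipe E (f.symm j)).1, f (pipe E (f.symm j)).2.1,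
      f (pipe E (f.symm j)).2.2), (fun r => ev (vals K x) r.1 r.2) ∘ f.symm,
    f ⟨⟨0, Nat.succ_pos k⟩, Sum.inl i⟩, k, fun t => ?_⟩
  rw [stepOf_equiv f (pipe E)]
  have h2 := h1 t
  simp only [Function.iterate_zero, id] at h2
  rw [h2, Function.comp_apply, Equiv.symm_apply_apply]
  show ev (vals K ((pstep p)^[(t + k - 0) / (k + 1)] x)) 0 (Sum.inl i) = _
  rw [Nat.sub_zero]
  rfl

/-- adding a coordinate -/
noncomputable def extp {σ : Type} (p : σ → MvPolynomial σ ℂ) (h : MvPolynomial σ ℂ) :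
    Option σ → MvPolynomial (Option σ) ℂ
  | none => rename some (bind₁ p h)
  | some i => rename some (p i)

theorem extp_orbit {σ : Type} (p : σ → MvPolynomial σ ℂ) (h : MvPolynomial σ ℂ) (x : σ → ℂ)
    (n : ℕ) : (pstep (extp p h))^[n] (fun o => o.elim (eval x h) x) =
      fun o => o.elim (eval ((pstep p)^[n] x) h) ((pstep p)^[n] x) := by
  induction n with
  | zero => rfl
  | succ n ih =>
    rw [Function.iterate_succ_apply', ih, Function.iterate_succ_apply']
    obtain ⟨z, hz⟩ : ∃ z, z = (pstep p)^[n] x := ⟨_, rfl⟩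
    rw [← hz]
    have h1 : (fun o : Option σ => o.elim (eval z h) z) ∘ some = z := rfl
    funext o
    cases o with
    | none =>
      show eval _ (rename some (bind₁ p h)) = eval (pstep p z) h
      rw [eval_rename, h1]
      show eval₂Hom (RingHom.id ℂ) z (bind₁ p h) = _
      rw [eval₂Hom_bind₁]
      rfl
    | some i =>
      show eval _ (rename some (p i)) = eval z (p i)
      rw [eval_rename, h1]

end Pool.Agent.Q59.DM
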