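import Pool.Agent.Q59.DM.Pipe

/-! # From one arithmetic progression to a finite union of arithmetic progressions -/

set_option autoImplicit false

namespace Pool.Agent.Q59.DM

open MvPolynomial

/-- A coordinate of an orbit of a simple map which vanishes infinitely often vanishes along an
arithmetic progression. -/
def WeakSimple : Prop :=
  ∀ (N : ℕ) (op : Fin N → Bool × Fin N × Fin N) (y : Fin N → ℂ) (i : Fin N),
    {n : ℕ | (stepOf op)^[n] y i = 0}.Infinite →
      ∃ a b : ℕ, 0 < b ∧ ∀ k : ℕ, (stepOf op)^[a + b * k] y i = 0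

theorem weak_poly (hW : WeakSimple) {σ : Type} [Finite σ] (p : σ → MvPolynomial σ ℂ)
    (x : σ → ℂ) (h : MvPolynomial σ ℂ)
    (hinf : {n : ℕ | eval ((pstep p)^[n] x) h = 0}.Infinite) :
    ∃ a b : ℕ, 0 < b ∧ ∀ k : ℕ, eval ((pstep p)^[a + b * k] x) h = 0 := by
  obtain ⟨N, op, y, j, k, hk⟩ := simulate (extp p h) (fun o => o.elim (eval x h) x) none
  have h1 : ∀ t, (stepOf op)^[t] y j = eval ((pstep p)^[(t + k) / (k + 1)] x) h := by
    intro t
    rw [hk, extp_orbit]
    rfl
  have h2 : ∀ n, ((k + 1) * n + k) / (k + 1) = n := fun n => by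
    rw [Nat.add_comm, Nat.add_mul_div_left _ _ (Nat.succ_pos k), Nat.div_eq_of_lt (by omega),
      Nat.zero_add]
  have h3 : {n : ℕ | (stepOf op)^[n] y j = 0}.Infinite := by
    have h4 : ((fun n => (k + 1) * n) '' {n : ℕ | eval ((pstep p)^[n] x) h = 0}).Infinite :=
      hinf.image fun a _ b _ hab => Nat.eq_of_mul_eq_mul_left (Nat.succ_pos k) hab
    refine h4.mono ?_
    rintro _ ⟨n, hn, rfl⟩
    show (stepOf op)^[(k + 1) * n] y j = 0
    rw [h1, h2]
    exact hn
  obtain ⟨a, b, hb, hab⟩ := hW N op y j h3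
  refine ⟨(a + k) / (k + 1), b, hb, fun m => ?_⟩
  have h5 := hab ((k + 1) * m)
  rw [h1] at h5
  have h6 : (a + b * ((k + 1) * m) + k) / (k + 1) = (a + k) / (k + 1) + b * m := by
    have : a + b * ((k + 1) * m) + k = a + k + (k + 1) * (b * m) := by ring
    rw [this, Nat.add_mul_div_left _ _ (Nat.succ_pos k)]
  rwa [h6] at h5

/-- the iterates of a polynomial map -/
noncomputable def piter {σ : Type} (p : σ → MvPolynomial σ ℂ) : ℕ → σ → MvPolynomial σ ℂ
  | 0 => X
  | r + 1 => fun i => bind₁ (piter p r) (p i)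

theorem eval_bind {σ : Type} (q : σ → MvPolynomial σ ℂ) (h : MvPolynomial σ ℂ) (z : σ → ℂ) :
    eval z (bind₁ q h) = eval (pstep q z) h := by
  show eval₂Hom (RingHom.id ℂ) z (bind₁ q h) = _
  rw [eval₂Hom_bind₁]
  rfl

theorem pstep_piter {σ : Type} (p : σ → MvPolynomial σ ℂ) (r : ℕ) (z : σ → ℂ) :
    pstep (piter p r) z = (pstep p)^[r] z := by
  induction r with
  | zero =>
    funext i
    show eval z (X i) = z i
    rw [eval_X]
  | succ r ih =>
    rw [Function.iterate_succ_apply', ← ih]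
    funext i
    show eval z (bind₁ (piter p r) (p i)) = _
    rw [eval_bind]
    rfl

/-- the polynomials which vanish at the `x (a + r k)` -/
def Iv {σ : Type} (x : ℕ → σ → ℂ) (a r : ℕ) : Ideal (MvPolynomial σ ℂ) where
  carrier := {f | ∀ k, eval (x (a + r * k)) f = 0}
  zero_mem' := fun k => map_zero _
  add_mem' := fun {f g} hf hg k => by rw [map_add, hf k, hg k, add_zero]
  smul_mem' := fun c f hf k => by rw [smul_eq_mul, map_mul, hf k, mul_zero]

theorem mem_Iv {σ : Type} (x : ℕ → σ → ℂ) (a r : ℕ) (f : MvPolynomial σ ℂ) :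
    f ∈ Iv x a r ↔ ∀ k, eval (x (a + r * k)) f = 0 := Iff.rfl

theorem ep_of_finite {S : Set ℕ} (h : S.Finite) : EP S := by
  obtain ⟨N, hN⟩ := h.bddAbove
  refine ⟨1, N + 1, one_pos, fun n hn => ?_⟩
  constructor
  · intro h1
    have := hN h1
    omega
  · intro h1
    have := hN h1
    omega

/-- **From one arithmetic progression to a finite union.** -/
theorem ep_of_weak (hW : WeakSimple) {σ : Type} [Finite σ] (p : σ → MvPolynomial σ ℂ)
    (x : σ → ℂ) (h : MvPolynomial σ ℂ) : EP {n : ℕ | eval ((pstep p)^[n] x) h = 0} := by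
  classical
  obtain ⟨xs, hxs⟩ : ∃ xs : ℕ → σ → ℂ, xs = fun n => (pstep p)^[n] x := ⟨_, rfl⟩
  have hadd : ∀ s n, (pstep p)^[s] (xs n) = xs (n + s) := fun s n => by
    rw [hxs]
    show (pstep p)^[s] ((pstep p)^[n] x) = (pstep p)^[n + s] x
    rw [← Function.iterate_add_apply, Nat.add_comm]
  have hS : {n : ℕ | eval ((pstep p)^[n] x) h = 0} = {n | eval (xs n) h = 0} := by rw [hxs]
  rw [hS]
  by_contra hcon
  obtain ⟨I, ⟨a, r, hr, hne, hI⟩, hmin⟩ := (wellFounded_gt :
    WellFounded ((· > ·) : Ideal (MvPolynomial σ ℂ) → Ideal (MvPolynomial σ ℂ) → Prop)).has_min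
    {I | ∃ a r : ℕ, 0 < r ∧ ¬ EP {k | eval (xs (a + r * k)) h = 0} ∧ I = Iv xs a r}
    ⟨Iv xs 0 1, 0, 1, one_pos, by simpa using hcon, rfl⟩
  subst hI
  have hmax : ∀ a' r', 0 < r' → ¬ EP {k | eval (xs (a' + r' * k)) h = 0} →
      Iv xs a r ≤ Iv xs a' r' → Iv xs a' r' = Iv xs a r := fun a' r' hr' hne' hle =>
    (eq_of_le_of_not_lt hle (hmin _ ⟨a', r', hr', hne', rfl⟩)).symm
  -- one progression
  have hinf : {k : ℕ | eval ((pstep (piter p r))^[k] (xs a)) h = 0}.Infinite := by
    intro hfin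
    apply hne
    have h1 : ∀ k, (pstep (piter p r))^[k] (xs a) = xs (a + r * k) := by
      intro k
      rw [show pstep (piter p r) = (pstep p)^[r] from funext (pstep_piter p r),
        ← Function.iterate_mul, hadd]
    simp only [h1] at hfin
    exact ep_of_finite hfin
  have h1 : ∀ k, (pstep (piter p r))^[k] (xs a) = xs (a + r * k) := by
    intro k
    rw [show pstep (piter p r) = (pstep p)^[r] from funext (pstep_piter p r),
      ← Function.iterate_mul, hadd]
  obtain ⟨a', b, hb, hab⟩ := weak_poly hW (piter p r) (xs a) h hinf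
  simp only [h1] at hab
  -- a residue class
  obtain ⟨j, hj, hjne⟩ : ∃ j < b, ¬ EP {k | eval (xs (a + r * (a' + j) + r * b * k)) h = 0} := by
    by_contra hall
    push Not at hall
    apply hne
    refine ep_of_classes a' b hb fun j hj => ?_
    have := hall j hj
    convert this using 1
    ext k
    rw [Set.mem_ofPred_eq, Set.mem_ofPred_eq, Set.mem_ofPred_eq,
      show a + r * (a' + j + b * k) = a + r * (a' + j) + r * b * k by ring]
  have hI1 : Iv xs (a + r * (a' + j)) (r * b) = Iv xs a r := by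
    refine hmax _ _ (Nat.mul_pos hr hb) hjne fun f hf k => ?_
    have := hf (a' + j + b * k)
    rwa [show a + r * (a' + j + b * k) = a + r * (a' + j) + r * b * k by ring] at this
  have hI2 : Iv xs (a + r * (b - j)) r = Iv xs a r := by
    refine hmax _ _ hr (fun hep => hne ?_) fun f hf k => ?_
    · refine ep_of_classes (b - j) 1 one_pos fun i hi => ?_
      have hi0 : i = 0 := by omega
      subst hi0
      convert hep using 1
      ext k
      rw [Set.mem_ofPred_eq, Set.mem_ofPred_eq, Set.mem_ofPred_eq,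
        show a + r * (b - j + 0 + 1 * k) = a + r * (b - j) + r * k by ring]
    · have := hf (b - j + k)
      rwa [show a + r * (b - j + k) = a + r * (b - j) + r * k by ring] at this
  have hg : bind₁ (piter p (r * (b - j))) h ∈ Iv xs a r := by
    rw [← hI1]
    intro k
    rw [eval_bind, pstep_piter, hadd]
    have h3 : a + r * (a' + j) + r * b * k + r * (b - j) = a + r * (a' + b * (k + 1)) := by
      obtain ⟨c, rfl⟩ : ∃ c, b = j + c := ⟨b - j, by omega⟩
      rw [Nat.add_sub_cancel_left]
      ring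
    rw [h3]
    exact hab (k + 1)
  have hh : h ∈ Iv xs a r := by
    rw [← hI2]
    intro k
    have := hg k
    rw [eval_bind, pstep_piter, hadd] at this
    rwa [show a + r * k + r * (b - j) = a + r * (b - j) + r * k by ring] at this
  apply hne
  have : {k | eval (xs (a + r * k)) h = 0} = Set.univ := Set.eq_univ_of_forall hh
  rw [this]
  exact ep_univ

end Pool.Agent.Q59.DM
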